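import Mathlib

/-!
# Large triangles with boundary in planar sets of large Beer index

We prove that every planar set `S` whose Beer index is at least `ε > 0` contains the boundary of a
triangle of area at least `(ε² / 12000) λ(S)`.

Outline.  For a vertical line `x = a` let `f(a)` be the length of its part inside `S`.
* (`low_pairs`) The pairs of points `p, q` of `S` at horizontal distance `D` for which both
  `f(p.1) D < t` and `f(q.1) D < t` form a set of measure at most `4 t λ(S)`.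
* Applying this to the pairs `(p, q)`, `(p, m)`, `(m, q)`, where `m` is the midpoint of a segment
  `pq ⊆ S`, we find a set of visible pairs of measure `≥ c ε λ(S)²` in which both ends lie
  on vertical lines with `f · D ≥ c ε λ(S)` (`m` may take the role of one end).
* By Fubini there are two vertical lines `x = a`, `x = b` such that a proportion `c ε` of the
  pairs in `S`, one point on each line, see each other; a corner argument (`corner`) gives two
  crossing segments that, together with a third segment, bound a large triangle.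
-/

set_option autoImplicit false

namespace Pool.Agent.Results.MP_40f41c_co.BeerTriangle

open MeasureTheory Set ENNReal

/-- `Seg S` is the set of pairs `(p, q)` of points of `S` such that the closed segment `[p, q]` is
contained in `S`. -/
def Seg (S : Set (ℝ × ℝ)) : Set ((ℝ × ℝ) × (ℝ × ℝ)) :=
  {p | p.1 ∈ S ∧ p.2 ∈ S ∧ segment ℝ p.1 p.2 ⊆ S}

/-- The Beer index of `S` is defined: `S` is Lebesgue measurable with `0 < λ(S) < ∞`, and `Seg S`
is Lebesgue measurable in `ℝ⁴`.  (`volume` is Lebesgue measure on `ℝ × ℝ` and on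
`(ℝ × ℝ) × (ℝ × ℝ)`, and `NullMeasurableSet` is Lebesgue measurability.) -/
structure BeerDefined (S : Set (ℝ × ℝ)) : Prop where
  /-- `S` is Lebesgue measurable -/
  measurable : NullMeasurableSet S volume
  /-- `S` has positive area -/
  pos : 0 < volume S
  /-- `S` has finite area -/
  finite : volume S < ⊤
  /-- `Seg S` is Lebesgue measurable -/
  seg_measurable : NullMeasurableSet (Seg S) volume

/-- The Beer index `b(S) = λ₄(Seg(S)) / λ(S)²`. -/
noncomputable def beerIndex (S : Set (ℝ × ℝ)) : ℝ :=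
  (volume (Seg S)).toReal / (volume S).toReal ^ 2


/-! ### Area of a triangle -/

/-- The open standard triangle has area `1/2`. -/
lemma volume_std : volume (regionBetween (fun _ : ℝ => (0 : ℝ)) (fun x => 1 - x) (Icc 0 1)) =
    ENNReal.ofReal (1 / 2) := by
  have h1 : IntegrableOn (fun _ : ℝ => (0 : ℝ)) (Icc 0 1) volume := by
    exact continuousOn_const.integrableOn_Icc
  have h2 : IntegrableOn (fun x : ℝ => 1 - x) (Icc 0 1) volume := by
    apply ContinuousOn.integrableOn_Icc
    fun_prop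
  have h3 := volume_regionBetween_eq_integral (μ := (volume : Measure ℝ)) h1 h2
    measurableSet_Icc (by
      intro x hx
      simp only [sub_nonneg]
      exact hx.2)
  rw [← Measure.volume_eq_prod] at h3
  rw [h3]
  congr 1
  have : ∫ y in Icc (0 : ℝ) 1, ((fun x : ℝ => 1 - x) - (fun _ : ℝ => (0 : ℝ)) : ℝ → ℝ) y =
      ∫ y in (0 : ℝ)..1, (1 - y) := by
    rw [intervalIntegral.integral_of_le zero_le_one, integral_Icc_eq_integral_Ioc]
    simp
  rw [this]
  rw [intervalIntegral.integral_sub (by simp) (by simp)]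
  simp
  norm_num

/-- Lower bound on the area of a triangle with vertices `P`, `P + e₁`, `P + e₂`. -/
lemma triangle_area (P e₁ e₂ : ℝ × ℝ) :
    ENNReal.ofReal (|e₁.1 * e₂.2 - e₁.2 * e₂.1| / 2) ≤
      volume (convexHull ℝ {P, P + e₁, P + e₂}) := by
  let M : Matrix (Fin 2) (Fin 2) ℝ := !![e₁.1, e₂.1; e₁.2, e₂.2]
  let f : ℝ × ℝ →ₗ[ℝ] ℝ × ℝ := Matrix.toLin (Module.Basis.finTwoProd ℝ) (Module.Basis.finTwoProd ℝ) M
  have hf : ∀ x : ℝ × ℝ, f x = x.1 • e₁ + x.2 • e₂ := by
    intro x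
    simp only [f, M, Matrix.toLin_finTwoProd_apply]
    ext <;> simp <;> ring
  have hdet : LinearMap.det f = e₁.1 * e₂.2 - e₁.2 * e₂.1 := by
    simp only [f, LinearMap.det_toLin, M, Matrix.det_fin_two_of]
    ring
  set D : Set (ℝ × ℝ) := regionBetween (fun _ : ℝ => (0 : ℝ)) (fun x => 1 - x) (Icc 0 1) with hD
  have hsub : (fun x => P + x) '' (f '' D) ⊆ convexHull ℝ {P, P + e₁, P + e₂} := by
    rintro _ ⟨_, ⟨x, hx, rfl⟩, rfl⟩
    obtain ⟨hx1, hx2, hx3⟩ := hx
    simp only at hx2 hx3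
    rw [hf]
    have hP : P ∈ convexHull ℝ {P, P + e₁, P + e₂} := subset_convexHull _ _ (by simp)
    have hP1 : P + e₁ ∈ convexHull ℝ {P, P + e₁, P + e₂} := subset_convexHull _ _ (by simp)
    have hP2 : P + e₂ ∈ convexHull ℝ {P, P + e₁, P + e₂} := subset_convexHull _ _ (by simp)
    have hc : Convex ℝ (convexHull ℝ {P, P + e₁, P + e₂}) := convex_convexHull _ _
    have hsum := hc.sum_mem (t := (Finset.univ : Finset (Fin 3)))
      (w := ![1 - x.1 - x.2, x.1, x.2]) (z := ![P, P + e₁, P + e₂]) (by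
        intro i _
        fin_cases i
        · simp; linarith
        · simp; exact hx1.1
        · simp; linarith) (by
        simp [Fin.sum_univ_three]
        ring) (by
        intro i _
        fin_cases i
        · simpa using hP
        · simpa using hP1
        · simpa using hP2)
    have heq : P + (x.1 • e₁ + x.2 • e₂) = ∑ i : Fin 3, (![1 - x.1 - x.2, x.1, x.2] : Fin 3 → ℝ) i •
        (![P, P + e₁, P + e₂] : Fin 3 → ℝ × ℝ) i := by
      simp only [Fin.sum_univ_three]
      ext <;> simp <;> ring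
    show P + (x.1 • e₁ + x.2 • e₂) ∈ _
    rw [heq]
    exact hsum
  calc ENNReal.ofReal (|e₁.1 * e₂.2 - e₁.2 * e₂.1| / 2)
      = ENNReal.ofReal |LinearMap.det f| * volume D := by
        rw [hdet, hD, volume_std, ← ENNReal.ofReal_mul (abs_nonneg _)]
        congr 1
        ring
    _ = volume (f '' D) := (Measure.addHaar_image_linearMap volume f D).symm
    _ = volume ((fun x => P + x) '' (f '' D)) := by
        rw [image_add_left, measure_preimage_add]
    _ ≤ _ := measure_mono hsub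

/-- Two crossing segments together with the segment joining two of their ends. -/
lemma cross_triangle {S : Set (ℝ × ℝ)} {a b u₁ u₂ v₁ v₂ α β : ℝ} (hab : a ≠ b)
    (hα : 0 < α) (hβ : 0 < β)
    (hu : u₂ ≤ u₁ - α) (hv : v₂ ≤ v₁ - β)
    (h11 : segment ℝ ((a, u₁) : ℝ × ℝ) (b, v₁) ⊆ S)
    (h12 : segment ℝ ((a, u₁) : ℝ × ℝ) (b, v₂) ⊆ S)
    (h21 : segment ℝ ((a, u₂) : ℝ × ℝ) (b, v₁) ⊆ S) :
    ∃ x y z : ℝ × ℝ, AffineIndependent ℝ ![x, y, z] ∧
      segment ℝ x y ⊆ S ∧ segment ℝ y z ⊆ S ∧ segment ℝ x z ⊆ S ∧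
      ENNReal.ofReal (|a - b| * (min α β) / 4) ≤ volume (convexHull ℝ {x, y, z}) := by
  set α' := u₁ - u₂ with hα'
  set β' := v₁ - v₂ with hβ'
  have hα1 : α ≤ α' := by rw [hα']; linarith
  have hβ1 : β ≤ β' := by rw [hβ']; linarith
  have hα0 : 0 < α' := lt_of_lt_of_le hα hα1
  have hβ0 : 0 < β' := lt_of_lt_of_le hβ hβ1
  set l : ℝ := α' / (α' + β') with hl
  have hl0 : 0 < l := by positivity
  have hl1 : l < 1 := by
    rw [hl, div_lt_one (by positivity)]
    linarith
  set e₁ : ℝ × ℝ := (b - a, v₁ - u₁) with he₁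
  set e₂ : ℝ × ℝ := (l * (b - a), l * (v₂ - u₁)) with he₂
  have hx : ((a, u₁) : ℝ × ℝ) + e₁ = (b, v₁) := by
    rw [he₁]; ext <;> simp
  have hR1 : ((a, u₁) : ℝ × ℝ) + e₂ ∈ segment ℝ ((a, u₁) : ℝ × ℝ) (b, v₂) := by
    refine ⟨1 - l, l, by linarith, hl0.le, by ring, ?_⟩
    rw [he₂]; ext <;> simp <;> ring
  have hR2 : ((a, u₁) : ℝ × ℝ) + e₂ ∈ segment ℝ ((a, u₂) : ℝ × ℝ) (b, v₁) := by
    refine ⟨1 - l, l, by linarith, hl0.le, by ring, ?_⟩
    rw [he₂]
    ext
    · simp; ring
    · simp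
      have : l * (α' + β') = α' := by
        rw [hl]; field_simp
      rw [hα', hβ'] at this
      linarith
  have hdet : e₁.1 * e₂.2 - e₁.2 * e₂.1 = -((b - a) * (l * β')) := by
    rw [he₁, he₂, hβ']; simp; ring
  refine ⟨(a, u₁), (a, u₁) + e₁, (a, u₁) + e₂, ?_, ?_, ?_, ?_, ?_⟩
  · rw [affineIndependent_iff_linearIndependent_vsub ℝ _ (0 : Fin 3)]
    rw [Fintype.linearIndependent_iff]
    intro g hg
    have huniv : (Finset.univ : Finset {x : Fin 3 // x ≠ 0}) = {⟨1, by decide⟩, ⟨2, by decide⟩} := by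
      decide
    rw [huniv, Finset.sum_pair (by decide)] at hg
    simp only [ne_eq, Matrix.cons_val_one, Matrix.cons_val_zero, vsub_eq_sub, add_sub_cancel_left,
      Matrix.cons_val] at hg
    have hg1 := congrArg Prod.fst hg
    have hg2 := congrArg Prod.snd hg
    simp only [Prod.fst_add, Prod.smul_fst, smul_eq_mul, Prod.snd_add, Prod.smul_snd,
      Prod.fst_zero, Prod.snd_zero] at hg1 hg2
    have hne : e₁.1 * e₂.2 - e₁.2 * e₂.1 ≠ 0 := by
      rw [hdet]
      apply neg_ne_zero.2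
      apply mul_ne_zero
      · exact sub_ne_zero.2 (Ne.symm hab)
      · positivity
    have hga : g ⟨1, by decide⟩ = 0 := by
      have h5 : g ⟨1, by decide⟩ * (e₁.1 * e₂.2 - e₁.2 * e₂.1) = 0 := by
        linear_combination e₂.2 * hg1 - e₂.1 * hg2
      rcases mul_eq_zero.1 h5 with h | h
      · exact h
      · exact absurd h hne
    have hgb : g ⟨2, by decide⟩ = 0 := by
      have h5 : g ⟨2, by decide⟩ * (e₁.1 * e₂.2 - e₁.2 * e₂.1) = 0 := by
        linear_combination e₁.1 * hg2 - e₁.2 * hg1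
      rcases mul_eq_zero.1 h5 with h | h
      · exact h
      · exact absurd h hne
    rintro ⟨i, hi⟩
    fin_cases i
    · exact absurd rfl hi
    · exact hga
    · exact hgb
  · rw [hx]; exact h11
  · rw [hx]
    refine Subset.trans ?_ h21
    exact (convex_segment _ _).segment_subset (right_mem_segment ℝ _ _) hR2
  · refine Subset.trans ?_ h12
    exact (convex_segment _ _).segment_subset (left_mem_segment ℝ _ _) hR1
  · refine le_trans (ENNReal.ofReal_le_ofReal ?_) (triangle_area (a, u₁) e₁ e₂)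
    rw [hdet, abs_neg, abs_mul, abs_of_pos (show 0 < l * β' by positivity), abs_sub_comm b a]
    have hmin : min α β / 2 ≤ l * β' := by
      have h1 : min α β ≤ α' := (min_le_left _ _).trans hα1
      have h2 : min α β ≤ β' := (min_le_right _ _).trans hβ1
      have h3 : 0 < min α β := lt_min hα hβ
      rw [hl, div_mul_eq_mul_div, div_le_div_iff₀ (by norm_num) (by positivity)]
      nlinarith
    have h4 : 0 ≤ |a - b| := abs_nonneg _
    nlinarith


/-! ### Corners in planar compact sets -/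

lemma measurable_low {K : Set (ℝ × ℝ)} (hK : IsCompact K) (β : ℝ) :
    MeasurableSet {p : ℝ × ℝ | p ∈ K ∧ ¬ ∃ v', (p.1, v') ∈ K ∧ v' ≤ p.2 - β} := by
  have h1 : IsCompact {q : (ℝ × ℝ) × ℝ | q.1 ∈ K ∧ (q.1.1, q.2) ∈ K ∧ q.2 ≤ q.1.2 - β} := by
    apply IsCompact.of_isClosed_subset (hK.prod (hK.image continuous_snd))
    · have hc := hK.isClosed
      have e1 : IsClosed {q : (ℝ × ℝ) × ℝ | q.1 ∈ K} := hc.preimage continuous_fst
      have e2 : IsClosed {q : (ℝ × ℝ) × ℝ | (q.1.1, q.2) ∈ K} :=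
        hc.preimage (by fun_prop)
      have e3 : IsClosed {q : (ℝ × ℝ) × ℝ | q.2 ≤ q.1.2 - β} :=
        isClosed_le (by fun_prop) (by fun_prop)
      exact e1.inter (e2.inter e3)
    · rintro q ⟨hq1, hq2, -⟩
      exact ⟨hq1, ⟨_, hq2, rfl⟩⟩
  have h2 : {p : ℝ × ℝ | p ∈ K ∧ ¬ ∃ v', (p.1, v') ∈ K ∧ v' ≤ p.2 - β} =
      K \ (Prod.fst '' {q : (ℝ × ℝ) × ℝ | q.1 ∈ K ∧ (q.1.1, q.2) ∈ K ∧ q.2 ≤ q.1.2 - β}) := by
    ext p
    constructor
    · rintro ⟨hp, hn⟩
      refine ⟨hp, ?_⟩
      rintro ⟨q, ⟨-, hq2, hq3⟩, rfl⟩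
      exact hn ⟨q.2, hq2, hq3⟩
    · rintro ⟨hp, hn⟩
      refine ⟨hp, ?_⟩
      rintro ⟨v', hv1, hv2⟩
      exact hn ⟨(p, v'), ⟨hp, hv1, hv2⟩, rfl⟩
  rw [h2]
  exact hK.measurableSet.diff (h1.image continuous_fst).measurableSet

/-- The points of `K` with no point of `K` at least `β` below them in the same column have
small measure. -/
lemma low_bound {K : Set (ℝ × ℝ)} (hK : IsCompact K) {X : Set ℝ} (hX : MeasurableSet X)
    (hsub : ∀ p ∈ K, p.1 ∈ X) (β : ℝ) :
    volume {p : ℝ × ℝ | p ∈ K ∧ ¬ ∃ v', (p.1, v') ∈ K ∧ v' ≤ p.2 - β} ≤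
      ENNReal.ofReal β * volume X := by
  rw [Measure.volume_eq_prod, Measure.prod_apply (measurable_low hK β)]
  calc ∫⁻ u, volume (Prod.mk u ⁻¹' {p : ℝ × ℝ | p ∈ K ∧ ¬ ∃ v', (p.1, v') ∈ K ∧ v' ≤ p.2 - β})
      ≤ ∫⁻ u, X.indicator (fun _ => ENNReal.ofReal β) u := by
        apply lintegral_mono
        intro u
        by_cases hne : (Prod.mk u ⁻¹' {p : ℝ × ℝ | p ∈ K ∧ ¬ ∃ v', (p.1, v') ∈ K ∧
            v' ≤ p.2 - β}).Nonempty
        · obtain ⟨v, hv⟩ := hne
          have huX : u ∈ X := hsub _ hv.1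
          rw [indicator_of_mem huX]
          -- the column of K
          have hcol : IsCompact (Prod.snd '' (K ∩ {p : ℝ × ℝ | p.1 = u})) := by
            apply IsCompact.image _ continuous_snd
            exact hK.inter_right (isClosed_eq continuous_fst continuous_const)
          have hcolne : (Prod.snd '' (K ∩ {p : ℝ × ℝ | p.1 = u})).Nonempty :=
            ⟨v, ⟨(u, v), ⟨hv.1, rfl⟩, rfl⟩⟩
          obtain ⟨v0, hv0, hmin⟩ := hcol.exists_isLeast hcolne
          obtain ⟨⟨u', w⟩, ⟨hw1, hw2⟩, hw3⟩ := hv0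
          simp only at hw3
          have hw2' : u' = u := hw2
          subst hw2' hw3
          have hss : (Prod.mk u' ⁻¹' {p : ℝ × ℝ | p ∈ K ∧ ¬ ∃ v', (p.1, v') ∈ K ∧
              v' ≤ p.2 - β}) ⊆ Icc w (w + β) := by
            intro y hy
            obtain ⟨hy1, hy2⟩ := hy
            refine ⟨hmin ⟨(u', y), ⟨hy1, rfl⟩, rfl⟩, ?_⟩
            by_contra hcon
            push Not at hcon
            exact hy2 ⟨w, hw1, by simp only; linarith⟩
          refine (measure_mono hss).trans ?_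
          rw [Real.volume_Icc]
          apply le_of_eq
          congr 1
          ring
        · rw [Set.not_nonempty_iff_eq_empty] at hne
          beta_reduce
          rw [hne]
          simp
    _ = ENNReal.ofReal β * volume X := by
        rw [lintegral_indicator hX]
        simp

lemma corner {K : Set (ℝ × ℝ)} (hK : IsCompact K) {X Y : Set ℝ} (hX : MeasurableSet X)
    (hY : MeasurableSet Y) (hsubX : ∀ p ∈ K, p.1 ∈ X) (hsubY : ∀ p ∈ K, p.2 ∈ Y) {α β : ℝ}
    (hvol : ENNReal.ofReal β * volume X + ENNReal.ofReal α * volume Y < volume K) :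
    ∃ u₁ u₂ v₁ v₂, (u₁, v₁) ∈ K ∧ (u₁, v₂) ∈ K ∧ (u₂, v₁) ∈ K ∧ u₂ ≤ u₁ - α ∧ v₂ ≤ v₁ - β := by
  by_contra hcon
  push Not at hcon
  have hcov : K ⊆ {p : ℝ × ℝ | p ∈ K ∧ ¬ ∃ v', (p.1, v') ∈ K ∧ v' ≤ p.2 - β} ∪
      Prod.swap ⁻¹' {p : ℝ × ℝ | p ∈ (Prod.swap '' K) ∧
        ¬ ∃ v', (p.1, v') ∈ (Prod.swap '' K) ∧ v' ≤ p.2 - α} := by
    rintro ⟨u, v⟩ hp
    by_cases h : ∃ v', (u, v') ∈ K ∧ v' ≤ v - β
    · right
      obtain ⟨v2, hv2, hv2'⟩ := h
      refine ⟨⟨(u, v), hp, rfl⟩, ?_⟩
      rintro ⟨u2, ⟨⟨c, d⟩, hcd, hcd'⟩, hu2⟩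
      simp only [Prod.swap_prod_mk, Prod.mk.injEq] at hcd'
      obtain ⟨h1, h2⟩ := hcd'
      subst h1 h2
      simp only [Prod.snd_swap] at hu2
      have := hcon u c d v2 hp hv2 hcd hu2
      linarith
    · left
      exact ⟨hp, h⟩
  have h1 := (measure_mono (μ := volume) hcov).trans (measure_union_le _ _)
  have hK' : IsCompact (Prod.swap '' K) := hK.image continuous_swap
  have h2 := low_bound hK hX hsubX β
  have h3 := low_bound hK' hY (by
    rintro _ ⟨p, hp, rfl⟩
    exact hsubY p hp) α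
  have h4 : volume (Prod.swap ⁻¹' {p : ℝ × ℝ | p ∈ (Prod.swap '' K) ∧
        ¬ ∃ v', (p.1, v') ∈ (Prod.swap '' K) ∧ v' ≤ p.2 - α}) =
      volume {p : ℝ × ℝ | p ∈ (Prod.swap '' K) ∧
        ¬ ∃ v', (p.1, v') ∈ (Prod.swap '' K) ∧ v' ≤ p.2 - α} := by
    have hmp : MeasurePreserving (Prod.swap : ℝ × ℝ → ℝ × ℝ) volume volume :=
      Measure.measurePreserving_swap
    exact hmp.measure_preimage (measurable_low hK' α).nullMeasurableSet
  rw [h4] at h1
  exact absurd (h1.trans (add_le_add h2 h3)) (not_le.2 hvol)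


/-! ### Tonelli for pairs of points of the plane -/

/-- The length of the vertical slice of `T` at abscissa `a`. -/
noncomputable def slice (T : Set (ℝ × ℝ)) (a : ℝ) : ℝ≥0∞ := volume (Prod.mk a ⁻¹' T)

lemma measurable_slice {T : Set (ℝ × ℝ)} (hT : MeasurableSet T) : Measurable (slice T) :=
  measurable_measure_prodMk_left hT

lemma lintegral_slice {T : Set (ℝ × ℝ)} (hT : MeasurableSet T) :
    ∫⁻ a, slice T a = volume T := by
  rw [Measure.volume_eq_prod, Measure.prod_apply hT]
  rfl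

/-- The planar measure of the set of ordinates `(u, v)` for which `((a, u), (b, v))` lies in `E`. -/
noncomputable def slice2 (E : Set ((ℝ × ℝ) × (ℝ × ℝ))) (a b : ℝ) : ℝ≥0∞ :=
  volume {w : ℝ × ℝ | ((a, w.1), (b, w.2)) ∈ E}

lemma measurable_slice2_set {E : Set ((ℝ × ℝ) × (ℝ × ℝ))} (hE : MeasurableSet E) (a b : ℝ) :
    MeasurableSet {w : ℝ × ℝ | ((a, w.1), (b, w.2)) ∈ E} := by
  have : Measurable (fun w : ℝ × ℝ => (((a, w.1), (b, w.2)) : (ℝ × ℝ) × (ℝ × ℝ))) := by
    fun_prop
  exact this hE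

lemma tonelli4 {E : Set ((ℝ × ℝ) × (ℝ × ℝ))} (hE : MeasurableSet E) :
    volume E = ∫⁻ a, ∫⁻ b, slice2 E a b := by
  -- the indicator function in four variables
  let g : ℝ → ℝ → ℝ → ℝ → ℝ≥0∞ := fun a u b v => E.indicator 1 ((a, u), (b, v))
  have hg : Measurable (fun z : (ℝ × ℝ) × (ℝ × ℝ) => E.indicator (1 : (ℝ × ℝ) × (ℝ × ℝ) → ℝ≥0∞) z) :=
    measurable_one.indicator hE
  have h1 : volume E = ∫⁻ p : ℝ × ℝ, ∫⁻ q : ℝ × ℝ, E.indicator 1 (p, q) := by
    rw [← lintegral_indicator_one hE, Measure.volume_eq_prod, lintegral_prod _ hg.aemeasurable]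
  have h2 : ∀ p : ℝ × ℝ, ∫⁻ q : ℝ × ℝ, E.indicator (1 : (ℝ × ℝ) × (ℝ × ℝ) → ℝ≥0∞) (p, q) =
      ∫⁻ b, ∫⁻ v, E.indicator 1 (p, (b, v)) := by
    intro p
    rw [Measure.volume_eq_prod, lintegral_prod]
    exact (hg.comp (by fun_prop : Measurable (fun q : ℝ × ℝ => (p, q)))).aemeasurable
  have h3 : volume E = ∫⁻ a, ∫⁻ u, ∫⁻ b, ∫⁻ v, E.indicator (1 : (ℝ × ℝ) × (ℝ × ℝ) → ℝ≥0∞) ((a, u), (b, v)) := by
    rw [h1]
    simp_rw [h2]
    rw [Measure.volume_eq_prod, lintegral_prod]
    apply Measurable.aemeasurable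
    apply Measurable.lintegral_prod_right' (f := fun (z : (ℝ × ℝ) × ℝ) => ∫⁻ v,
      E.indicator (1 : (ℝ × ℝ) × (ℝ × ℝ) → ℝ≥0∞) (z.1, (z.2, v)))
    apply Measurable.lintegral_prod_right' (f := fun (z : ((ℝ × ℝ) × ℝ) × ℝ) =>
      E.indicator (1 : (ℝ × ℝ) × (ℝ × ℝ) → ℝ≥0∞) (z.1.1, (z.1.2, z.2)))
    exact hg.comp (by fun_prop)
  rw [h3]
  apply lintegral_congr
  intro a
  rw [lintegral_lintegral_swap]
  · apply lintegral_congr
    intro b
    rw [slice2, ← lintegral_indicator_one (measurable_slice2_set hE a b),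
      Measure.volume_eq_prod, lintegral_prod]
    · rfl
    · exact (measurable_one.indicator (measurable_slice2_set hE a b)).aemeasurable
  · apply Measurable.aemeasurable
    apply Measurable.lintegral_prod_right' (f := fun (z : (ℝ × ℝ) × ℝ) =>
      E.indicator (1 : (ℝ × ℝ) × (ℝ × ℝ) → ℝ≥0∞) ((a, z.1.1), (z.1.2, z.2)))
    exact hg.comp (by fun_prop)

/-- There is a pair of vertical lines with many pairs of `E`. -/
lemma exists_slice2 {E : Set ((ℝ × ℝ) × (ℝ × ℝ))} (hE : MeasurableSet E) {T : Set (ℝ × ℝ)}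
    (hT : MeasurableSet T) {ρ : ℝ≥0∞} (h : ρ * volume T ^ 2 < volume E) :
    ∃ a b : ℝ, ρ * (slice T a * slice T b) < slice2 E a b := by
  by_contra hcon
  push Not at hcon
  rw [tonelli4 hE] at h
  have : ∫⁻ a, ∫⁻ b, slice2 E a b ≤ ρ * volume T ^ 2 := by
    calc ∫⁻ a, ∫⁻ b, slice2 E a b ≤ ∫⁻ a, ∫⁻ b, ρ * (slice T a * slice T b) :=
          lintegral_mono fun a => lintegral_mono fun b => hcon a b
      _ = ρ * volume T ^ 2 := by
          have h1 : ∀ a, ∫⁻ b, ρ * (slice T a * slice T b) = ρ * (slice T a * volume T) := by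
            intro a
            simp_rw [← mul_assoc]
            rw [lintegral_const_mul _ (measurable_slice hT), lintegral_slice hT]
          simp_rw [h1]
          rw [lintegral_const_mul _ ((measurable_slice hT).mul_const _),
            lintegral_mul_const _ (measurable_slice hT), lintegral_slice hT, sq]
  exact absurd (lt_of_lt_of_le h this) (lt_irrefl _)


/-! ### Pairs of points both of whose vertical slices are short -/

lemma low_half {T : Set (ℝ × ℝ)} (hT : MeasurableSet T) {t : ℝ} (ht : 0 < t) (a : ℝ)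
    (y : ℝ≥0∞) :
    volume {q : ℝ × ℝ | q ∈ T ∧ slice T q.1 ≤ y ∧ y * ENNReal.ofReal |a - q.1| < ENNReal.ofReal t} ≤
      ENNReal.ofReal (2 * t) := by
  have hmeas : MeasurableSet {b : ℝ | y * ENNReal.ofReal |a - b| < ENNReal.ofReal t} := by
    apply measurableSet_lt _ measurable_const
    fun_prop
  have hmeas2 : MeasurableSet {q : ℝ × ℝ | q ∈ T ∧ slice T q.1 ≤ y ∧
      y * ENNReal.ofReal |a - q.1| < ENNReal.ofReal t} := by
    apply hT.inter
    apply MeasurableSet.inter
    · exact measurableSet_le ((measurable_slice hT).comp measurable_fst) measurable_const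
    · exact hmeas.preimage measurable_fst
  rw [Measure.volume_eq_prod, Measure.prod_apply hmeas2]
  calc ∫⁻ b, volume (Prod.mk b ⁻¹' {q : ℝ × ℝ | q ∈ T ∧ slice T q.1 ≤ y ∧
        y * ENNReal.ofReal |a - q.1| < ENNReal.ofReal t})
      ≤ ∫⁻ b, {b : ℝ | y * ENNReal.ofReal |a - b| < ENNReal.ofReal t}.indicator (fun _ => y) b := by
        apply lintegral_mono
        intro b
        beta_reduce
        by_cases hb : slice T b ≤ y ∧ y * ENNReal.ofReal |a - b| < ENNReal.ofReal t
        · rw [indicator_of_mem (show b ∈ {b : ℝ | y * ENNReal.ofReal |a - b| < ENNReal.ofReal t}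
            from hb.2)]
          refine le_trans (measure_mono ?_) hb.1
          intro v hv
          exact hv.1
        · have : Prod.mk b ⁻¹' {q : ℝ × ℝ | q ∈ T ∧ slice T q.1 ≤ y ∧
              y * ENNReal.ofReal |a - q.1| < ENNReal.ofReal t} = ∅ := by
            ext v
            simp only [mem_preimage, mem_empty_iff_false, iff_false]
            rintro ⟨-, h2⟩
            exact hb h2
          rw [this]
          simp
    _ = y * volume {b : ℝ | y * ENNReal.ofReal |a - b| < ENNReal.ofReal t} := by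
        rw [lintegral_indicator hmeas]
        simp
    _ ≤ ENNReal.ofReal (2 * t) := by
        rcases eq_or_ne y 0 with rfl | hy0
        · simp
        rcases eq_or_ne y ⊤ with rfl | hytop
        · have hsub : {b : ℝ | (⊤ : ℝ≥0∞) * ENNReal.ofReal |a - b| < ENNReal.ofReal t} ⊆ {a} := by
            intro b hb
            by_contra hne
            have hpos : 0 < |a - b| := abs_pos.2 (sub_ne_zero.2 (fun h => hne h.symm))
            have : (⊤ : ℝ≥0∞) * ENNReal.ofReal |a - b| = ⊤ := by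
              apply ENNReal.top_mul
              simpa using hpos
            have hb' : (⊤ : ℝ≥0∞) * ENNReal.ofReal |a - b| < ENNReal.ofReal t := hb
            rw [this] at hb'
            exact not_top_lt hb'
          have : volume {b : ℝ | (⊤ : ℝ≥0∞) * ENNReal.ofReal |a - b| < ENNReal.ofReal t} = 0 :=
            measure_mono_null hsub (by simp)
          rw [this]
          simp
        · obtain ⟨r, hr⟩ : ∃ r : ℝ, y = ENNReal.ofReal r ∧ 0 < r :=
            ⟨y.toReal, (ENNReal.ofReal_toReal hytop).symm, ENNReal.toReal_pos hy0 hytop⟩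
          obtain ⟨rfl, hr0⟩ := hr
          have hsub : {b : ℝ | ENNReal.ofReal r * ENNReal.ofReal |a - b| < ENNReal.ofReal t} ⊆
              Icc (a - t / r) (a + t / r) := by
            intro b hb
            have hb' : ENNReal.ofReal r * ENNReal.ofReal |a - b| < ENNReal.ofReal t := hb
            rw [← ENNReal.ofReal_mul hr0.le] at hb'
            have h1 := (ENNReal.ofReal_lt_ofReal_iff ht).1 hb'
            have h2 : |a - b| < t / r := by
              rw [lt_div_iff₀ hr0]
              linarith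
            have h3 := abs_lt.1 h2
            exact ⟨by linarith, by linarith⟩
          calc ENNReal.ofReal r * volume {b : ℝ | ENNReal.ofReal r * ENNReal.ofReal |a - b| <
                ENNReal.ofReal t}
              ≤ ENNReal.ofReal r * volume (Icc (a - t / r) (a + t / r)) := by gcongr
            _ = ENNReal.ofReal (2 * t) := by
                rw [Real.volume_Icc, ← ENNReal.ofReal_mul hr0.le]
                congr 1
                field_simp
                ring

/-- Pairs of points of `T` both of whose slices are short compared with `t / distance`. -/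
def Low (T : Set (ℝ × ℝ)) (t : ℝ) : Set ((ℝ × ℝ) × (ℝ × ℝ)) :=
  {p | p.1 ∈ T ∧ p.2 ∈ T ∧ slice T p.1.1 * ENNReal.ofReal |p.1.1 - p.2.1| < ENNReal.ofReal t ∧
    slice T p.2.1 * ENNReal.ofReal |p.1.1 - p.2.1| < ENNReal.ofReal t}

lemma measurable_dist : Measurable (fun p : (ℝ × ℝ) × (ℝ × ℝ) =>
    ENNReal.ofReal |p.1.1 - p.2.1|) := by
  fun_prop

lemma measurable_slice1 {T : Set (ℝ × ℝ)} (hT : MeasurableSet T) :
    Measurable (fun p : (ℝ × ℝ) × (ℝ × ℝ) => slice T p.1.1) :=
  (measurable_slice hT).comp (by fun_prop)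

lemma measurable_slice2' {T : Set (ℝ × ℝ)} (hT : MeasurableSet T) :
    Measurable (fun p : (ℝ × ℝ) × (ℝ × ℝ) => slice T p.2.1) :=
  (measurable_slice hT).comp (by fun_prop)

lemma measurableSet_Low {T : Set (ℝ × ℝ)} (hT : MeasurableSet T) (t : ℝ) :
    MeasurableSet (Low T t) := by
  apply (hT.preimage measurable_fst).inter
  apply (hT.preimage measurable_snd).inter
  apply MeasurableSet.inter
  · exact measurableSet_lt ((measurable_slice1 hT).mul measurable_dist) measurable_const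
  · exact measurableSet_lt ((measurable_slice2' hT).mul measurable_dist) measurable_const

lemma low_pairs {T : Set (ℝ × ℝ)} (hT : MeasurableSet T) {t : ℝ} (ht : 0 < t) :
    volume (Low T t) ≤ ENNReal.ofReal (4 * t) * volume T := by
  set N : Set ((ℝ × ℝ) × (ℝ × ℝ)) := {p | p.1 ∈ T ∧ p.2 ∈ T ∧ slice T p.2.1 ≤ slice T p.1.1 ∧
    slice T p.1.1 * ENNReal.ofReal |p.1.1 - p.2.1| < ENNReal.ofReal t} with hN
  have hNm : MeasurableSet N := by
    apply (hT.preimage measurable_fst).inter
    apply (hT.preimage measurable_snd).inter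
    apply MeasurableSet.inter
    · exact measurableSet_le (measurable_slice2' hT) (measurable_slice1 hT)
    · exact measurableSet_lt ((measurable_slice1 hT).mul measurable_dist) measurable_const
  have hNvol : volume N ≤ ENNReal.ofReal (2 * t) * volume T := by
    rw [Measure.volume_eq_prod, Measure.prod_apply hNm]
    calc ∫⁻ p, volume (Prod.mk p ⁻¹' N)
        ≤ ∫⁻ p, T.indicator (fun _ => ENNReal.ofReal (2 * t)) p := by
          apply lintegral_mono
          intro p
          beta_reduce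
          by_cases hp : p ∈ T
          · rw [indicator_of_mem hp]
            refine le_trans (measure_mono ?_) (low_half hT ht p.1 (slice T p.1))
            rintro q ⟨-, h2, h3, h4⟩
            exact ⟨h2, h3, h4⟩
          · have : Prod.mk p ⁻¹' N = ∅ := by
              ext v
              simp only [mem_preimage, mem_empty_iff_false, iff_false]
              rintro ⟨h1, -⟩
              exact hp h1
            rw [this]
            simp
      _ = ENNReal.ofReal (2 * t) * volume T := by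
          rw [lintegral_indicator hT]
          simp
  have hcov : Low T t ⊆ N ∪ Prod.swap ⁻¹' N := by
    rintro p ⟨h1, h2, h3, h4⟩
    rcases le_total (slice T p.2.1) (slice T p.1.1) with h | h
    · left
      exact ⟨h1, h2, h, h3⟩
    · right
      refine ⟨h2, h1, h, ?_⟩
      simp only [Prod.fst_swap, Prod.snd_swap]
      rw [abs_sub_comm]
      exact h4
  have hmp : MeasurePreserving (Prod.swap : (ℝ × ℝ) × (ℝ × ℝ) → (ℝ × ℝ) × (ℝ × ℝ))
      volume volume := Measure.measurePreserving_swap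
  calc volume (Low T t) ≤ volume N + volume (Prod.swap ⁻¹' N) :=
        (measure_mono hcov).trans (measure_union_le _ _)
    _ = volume N + volume N := by rw [hmp.measure_preimage hNm.nullMeasurableSet]
    _ ≤ ENNReal.ofReal (2 * t) * volume T + ENNReal.ofReal (2 * t) * volume T :=
        add_le_add hNvol hNvol
    _ = ENNReal.ofReal (4 * t) * volume T := by
        rw [← add_mul, ← ENNReal.ofReal_add (by positivity) (by positivity)]
        congr 2
        ring

/-! ### Passing to the midpoint -/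

lemma vol_mid {N : Set ((ℝ × ℝ) × (ℝ × ℝ))} (hN : MeasurableSet N) :
    volume {p : (ℝ × ℝ) × (ℝ × ℝ) | (p.1, (1 / 2 : ℝ) • (p.1 + p.2)) ∈ N} = 4 * volume N := by
  have hm : Measurable (fun p : (ℝ × ℝ) × (ℝ × ℝ) => (p.1, (1 / 2 : ℝ) • (p.1 + p.2))) := by
    fun_prop
  have hset : MeasurableSet {p : (ℝ × ℝ) × (ℝ × ℝ) | (p.1, (1 / 2 : ℝ) • (p.1 + p.2)) ∈ N} :=
    hm hN
  rw [Measure.volume_eq_prod, Measure.prod_apply hset, Measure.prod_apply hN,
    ← lintegral_const_mul' _ _ (by simp)]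
  apply lintegral_congr
  intro p
  have h1 : Prod.mk p ⁻¹' {p : (ℝ × ℝ) × (ℝ × ℝ) | (p.1, (1 / 2 : ℝ) • (p.1 + p.2)) ∈ N} =
      (fun q => p + q) ⁻¹' (((1 / 2 : ℝ) • ·) ⁻¹' (Prod.mk p ⁻¹' N)) := by
    ext q
    simp
  rw [h1, measure_preimage_add, Measure.addHaar_preimage_smul _ (by norm_num)]
  congr 1
  have : Module.finrank ℝ (ℝ × ℝ) = 2 := by simp
  rw [this]
  norm_num

/-! ### Finding the triangle -/

/-- A triangle of area at least `δ` with boundary in `S`. -/
def HasTriangle (S : Set (ℝ × ℝ)) (δ : ℝ) : Prop :=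
  ∃ x y z : ℝ × ℝ, AffineIndependent ℝ ![x, y, z] ∧
      segment ℝ x y ⊆ S ∧ segment ℝ y z ⊆ S ∧ segment ℝ x z ⊆ S ∧
      ENNReal.ofReal δ ≤ volume (convexHull ℝ {x, y, z})

lemma HasTriangle.mono {S : Set (ℝ × ℝ)} {δ δ' : ℝ} (h : HasTriangle S δ) (hd : δ' ≤ δ) :
    HasTriangle S δ' := by
  obtain ⟨x, y, z, h1, h2, h3, h4, h5⟩ := h
  exact ⟨x, y, z, h1, h2, h3, h4, (ENNReal.ofReal_le_ofReal hd).trans h5⟩

lemma finish {S T : Set (ℝ × ℝ)} {E : Set ((ℝ × ℝ) × (ℝ × ℝ))} (hE : MeasurableSet E)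
    (hT : MeasurableSet T) (hseg : ∀ p ∈ E, segment ℝ p.1 p.2 ⊆ S)
    (hET : ∀ p ∈ E, p.1 ∈ T ∧ p.2 ∈ T) {ρ τ : ℝ} (hρ : 0 < ρ) (hτ : 0 < τ)
    (hhigh : ∀ p ∈ E, ENNReal.ofReal τ ≤ slice T p.1.1 * ENNReal.ofReal |p.1.1 - p.2.1| ∧
      ENNReal.ofReal τ ≤ slice T p.2.1 * ENNReal.ofReal |p.1.1 - p.2.1|)
    (hvol : ENNReal.ofReal ρ * volume T ^ 2 < volume E) :
    HasTriangle S (ρ * τ / 8) := by
  obtain ⟨a, b, hab⟩ := exists_slice2 hE hT hvol
  set s := slice T a with hs
  set t := slice T b with ht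
  set G : Set (ℝ × ℝ) := {w : ℝ × ℝ | ((a, w.1), (b, w.2)) ∈ E} with hG
  have hGm : MeasurableSet G := measurable_slice2_set hE a b
  have hGvol : ENNReal.ofReal ρ * (s * t) < volume G := hab
  have hGne : G.Nonempty := by
    apply nonempty_of_measure_ne_zero (μ := volume)
    exact (lt_of_le_of_lt (zero_le) hGvol).ne'
  obtain ⟨w0, hw0⟩ := hGne
  obtain ⟨hh1, hh2⟩ := hhigh _ hw0
  simp only at hh1 hh2
  rw [← hs] at hh1
  rw [← ht] at hh2
  have hτ' : 0 < ENNReal.ofReal τ := by simpa using hτ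
  have hρ' : ENNReal.ofReal ρ ≠ 0 := by simpa using hρ
  have hs0 : s ≠ 0 := by
    intro h
    rw [h, zero_mul] at hh1
    exact absurd hτ' (not_lt.2 hh1)
  have ht0 : t ≠ 0 := by
    intro h
    rw [h, zero_mul] at hh2
    exact absurd hτ' (not_lt.2 hh2)
  have hne : a ≠ b := by
    intro h
    rw [h] at hh1
    simp at hh1
    linarith
  have hstop : s ≠ ⊤ := by
    intro h
    rw [h, ENNReal.top_mul ht0, ENNReal.mul_top hρ'] at hGvol
    exact not_top_lt hGvol
  have httop : t ≠ ⊤ := by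
    intro h
    rw [h, ENNReal.mul_top hs0, ENNReal.mul_top hρ'] at hGvol
    exact not_top_lt hGvol
  obtain ⟨K, hKG, hK, hKvol⟩ := hGm.exists_lt_isCompact hGvol
  set s' := s.toReal with hs'
  set t' := t.toReal with ht'
  have hs'0 : 0 < s' := ENNReal.toReal_pos hs0 hstop
  have ht'0 : 0 < t' := ENNReal.toReal_pos ht0 httop
  have hss : s = ENNReal.ofReal s' := (ENNReal.ofReal_toReal hstop).symm
  have htt : t = ENNReal.ofReal t' := (ENNReal.ofReal_toReal httop).symm
  have hX : MeasurableSet (Prod.mk a ⁻¹' T) := measurable_prodMk_left hT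
  have hY : MeasurableSet (Prod.mk b ⁻¹' T) := measurable_prodMk_left hT
  have hcor : ENNReal.ofReal (ρ * t' / 2) * volume (Prod.mk a ⁻¹' T) +
      ENNReal.ofReal (ρ * s' / 2) * volume (Prod.mk b ⁻¹' T) < volume K := by
    have h1 : volume (Prod.mk a ⁻¹' T) = ENNReal.ofReal s' := hss
    have h2 : volume (Prod.mk b ⁻¹' T) = ENNReal.ofReal t' := htt
    rw [h1, h2, ← ENNReal.ofReal_mul (by positivity), ← ENNReal.ofReal_mul (by positivity),
      ← ENNReal.ofReal_add (by positivity) (by positivity)]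
    rw [hss, htt, ← ENNReal.ofReal_mul hs'0.le, ← ENNReal.ofReal_mul hρ.le] at hKvol
    convert hKvol using 2
    ring
  obtain ⟨u₁, u₂, v₁, v₂, h11, h12, h21, hu, hv⟩ := corner hK hX hY
    (fun p hp => (hET _ (hKG hp)).1) (fun p hp => (hET _ (hKG hp)).2) hcor
  obtain ⟨x, y, z, i1, i2, i3, i4, i5⟩ := cross_triangle (S := S) hne
    (show 0 < ρ * s' / 2 by positivity) (show 0 < ρ * t' / 2 by positivity) hu hv
    (hseg _ (hKG h11)) (hseg _ (hKG h12)) (hseg _ (hKG h21))
  refine ⟨x, y, z, i1, i2, i3, i4, le_trans (ENNReal.ofReal_le_ofReal ?_) i5⟩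
  rw [hss, ← ENNReal.ofReal_mul hs'0.le, ENNReal.ofReal_le_ofReal_iff (by positivity)] at hh1
  rw [htt, ← ENNReal.ofReal_mul ht'0.le, ENNReal.ofReal_le_ofReal_iff (by positivity)] at hh2
  rcases le_total (ρ * s' / 2) (ρ * t' / 2) with h | h
  · rw [min_eq_left h]
    nlinarith
  · rw [min_eq_right h]
    nlinarith

/-- The variant for a segment and its midpoint. -/
lemma finish_mid {S T : Set (ℝ × ℝ)} {E : Set ((ℝ × ℝ) × (ℝ × ℝ))} (hE : MeasurableSet E)
    (hT : MeasurableSet T) (hST : S ⊆ T) (hseg : ∀ p ∈ E, segment ℝ p.1 p.2 ⊆ S)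
    {ρ t : ℝ} (hρ : 0 < ρ) (ht : 0 < t)
    (hhigh : ∀ p ∈ E, ENNReal.ofReal t ≤ slice T p.1.1 * ENNReal.ofReal |p.1.1 - p.2.1| ∧
      ENNReal.ofReal t ≤ slice T ((p.1.1 + p.2.1) / 2) * ENNReal.ofReal |p.1.1 - p.2.1|)
    (hvol : ENNReal.ofReal (4 * ρ) * volume T ^ 2 < volume E) :
    HasTriangle S (ρ * t / 16) := by
  set E' : Set ((ℝ × ℝ) × (ℝ × ℝ)) := {p | (p.1, (2 : ℝ) • p.2 - p.1) ∈ E} with hE'
  have hE'm : MeasurableSet E' := by
    have hm : Measurable (fun p : (ℝ × ℝ) × (ℝ × ℝ) => (p.1, (2 : ℝ) • p.2 - p.1)) := by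
      fun_prop
    exact hm hE
  have hvol' : volume E = 4 * volume E' := by
    rw [← vol_mid hE'm]
    congr 1
    ext p
    simp only [hE', mem_ofPred_eq]
    have : (2 : ℝ) • (1 / 2 : ℝ) • (p.1 + p.2) - p.1 = p.2 := by
      rw [smul_smul]
      norm_num
    rw [this]
  have hmem : ∀ p ∈ E', p.2 ∈ segment ℝ p.1 ((2 : ℝ) • p.2 - p.1) := by
    intro p _
    refine ⟨1 / 2, 1 / 2, by norm_num, by norm_num, by norm_num, ?_⟩
    rw [smul_sub, smul_smul]
    norm_num
  have hsubseg : ∀ p ∈ E', segment ℝ p.1 p.2 ⊆ S := by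
    intro p hp
    refine Subset.trans ?_ (hseg _ hp)
    exact (convex_segment _ _).segment_subset (left_mem_segment ℝ _ _) (hmem p hp)
  have key := finish (S := S) (T := T) hE'm hT hsubseg (by
      intro p hp
      exact ⟨hST (hsubseg p hp (left_mem_segment ℝ _ _)),
        hST (hsubseg p hp (right_mem_segment ℝ _ _))⟩) (ρ := ρ) (τ := t / 2) hρ (by positivity) (by
      intro p hp
      have h1 := hhigh _ hp
      simp only [Prod.fst_sub, Prod.smul_fst, smul_eq_mul, add_sub_cancel] at h1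
      have h2 : |p.1.1 - (2 * p.2.1 - p.1.1)| = 2 * |p.1.1 - p.2.1| := by
        have : p.1.1 - (2 * p.2.1 - p.1.1) = 2 * (p.1.1 - p.2.1) := by ring
        rw [this, abs_mul]
        norm_num
      have h3 : 2 * p.2.1 / 2 = p.2.1 := by ring
      rw [h2, h3, ENNReal.ofReal_mul (by norm_num)] at h1
      have h4 : ENNReal.ofReal t = ENNReal.ofReal 2 * ENNReal.ofReal (t / 2) := by
        rw [← ENNReal.ofReal_mul (by norm_num)]
        congr 1
        ring
      have h5 : ENNReal.ofReal 2 ≠ 0 := by simp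
      have h6 : ENNReal.ofReal 2 ≠ ⊤ := by simp
      constructor
      · have h7 := h1.1
        rw [h4, mul_left_comm] at h7
        exact (ENNReal.mul_le_mul_iff_right h5 h6).1 h7
      · have h7 := h1.2
        rw [h4, mul_left_comm] at h7
        exact (ENNReal.mul_le_mul_iff_right h5 h6).1 h7) (by
      rw [hvol', ENNReal.ofReal_mul (by norm_num), mul_assoc] at hvol
      have h8 : ENNReal.ofReal 4 = 4 := by simp
      rw [h8] at hvol
      exact (ENNReal.mul_lt_mul_iff_right (by norm_num) (by norm_num)).1 hvol)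
  exact key.mono (by linarith)

/-- The core statement for a measurable set of visible pairs. -/
lemma core {S T : Set (ℝ × ℝ)} {E : Set ((ℝ × ℝ) × (ℝ × ℝ))} (hE : MeasurableSet E)
    (hT : MeasurableSet T) (hTfin : volume T ≠ ⊤) (hTpos : volume T ≠ 0) (hST : S ⊆ T)
    (hseg : ∀ p ∈ E, segment ℝ p.1 p.2 ⊆ S) {ε : ℝ} (hε : 0 < ε)
    (hvol : ENNReal.ofReal ε * volume T ^ 2 ≤ volume E) :
    HasTriangle S (ε ^ 2 / 12000 * (volume T).toReal) := by
  set A : ℝ := (volume T).toReal with hA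
  have hA0 : 0 < A := ENNReal.toReal_pos hTpos hTfin
  have hTA : volume T = ENNReal.ofReal A := (ENNReal.ofReal_toReal hTfin).symm
  set t : ℝ := ε * A / 41 with ht
  set ρ : ℝ := ε / 18 with hρ
  have ht0 : 0 < t := by positivity
  have hρ0 : 0 < ρ := by positivity
  -- points of `E` have ends in `S`
  have hE1 : ∀ p ∈ E, p.1 ∈ S := fun p hp => hseg p hp (left_mem_segment ℝ _ _)
  have hE2 : ∀ p ∈ E, p.2 ∈ S := fun p hp => hseg p hp (right_mem_segment ℝ _ _)
  have hEmid : ∀ p ∈ E, (1 / 2 : ℝ) • (p.1 + p.2) ∈ segment ℝ p.1 p.2 := by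
    intro p _
    refine ⟨1 / 2, 1 / 2, by norm_num, by norm_num, by norm_num, ?_⟩
    rw [smul_add]
  -- slice times distance
  let fa : (ℝ × ℝ) × (ℝ × ℝ) → ℝ≥0∞ := fun p => slice T p.1.1 * ENNReal.ofReal |p.1.1 - p.2.1|
  let fb : (ℝ × ℝ) × (ℝ × ℝ) → ℝ≥0∞ := fun p => slice T p.2.1 * ENNReal.ofReal |p.1.1 - p.2.1|
  let fm : (ℝ × ℝ) × (ℝ × ℝ) → ℝ≥0∞ := fun p =>
    slice T ((p.1.1 + p.2.1) / 2) * ENNReal.ofReal |p.1.1 - p.2.1|
  have hfa : Measurable fa := (measurable_slice1 hT).mul measurable_dist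
  have hfb : Measurable fb := (measurable_slice2' hT).mul measurable_dist
  have hfm : Measurable fm := by
    apply Measurable.mul _ measurable_dist
    exact (measurable_slice hT).comp (by fun_prop)
  set Ea : Set ((ℝ × ℝ) × (ℝ × ℝ)) := E ∩ {p | ENNReal.ofReal t ≤ fa p ∧ ENNReal.ofReal t ≤ fb p}
    with hEa
  set Eb : Set ((ℝ × ℝ) × (ℝ × ℝ)) := E ∩ {p | ENNReal.ofReal t ≤ fa p ∧ ENNReal.ofReal t ≤ fm p}
    with hEb
  set Ec : Set ((ℝ × ℝ) × (ℝ × ℝ)) := E ∩ {p | ENNReal.ofReal t ≤ fb p ∧ ENNReal.ofReal t ≤ fm p}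
    with hEc
  have hEam : MeasurableSet Ea := hE.inter
    ((measurableSet_le measurable_const hfa).inter (measurableSet_le measurable_const hfb))
  have hEbm : MeasurableSet Eb := hE.inter
    ((measurableSet_le measurable_const hfa).inter (measurableSet_le measurable_const hfm))
  have hEcm : MeasurableSet Ec := hE.inter
    ((measurableSet_le measurable_const hfb).inter (measurableSet_le measurable_const hfm))
  set Na : Set ((ℝ × ℝ) × (ℝ × ℝ)) := E ∩ {p | fa p < ENNReal.ofReal t ∧ fb p < ENNReal.ofReal t}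
    with hNa
  set Nb : Set ((ℝ × ℝ) × (ℝ × ℝ)) := E ∩ {p | fa p < ENNReal.ofReal t ∧ fm p < ENNReal.ofReal t}
    with hNb
  set Nc : Set ((ℝ × ℝ) × (ℝ × ℝ)) := E ∩ {p | fb p < ENNReal.ofReal t ∧ fm p < ENNReal.ofReal t}
    with hNc
  have hcov : E ⊆ Ea ∪ Eb ∪ Ec ∪ Na ∪ Nb ∪ Nc := by
    intro p hp
    rcases le_or_gt (ENNReal.ofReal t) (fa p) with h1 | h1 <;>
    rcases le_or_gt (ENNReal.ofReal t) (fb p) with h2 | h2 <;>
    rcases le_or_gt (ENNReal.ofReal t) (fm p) with h3 | h3
    · exact Or.inl (Or.inl (Or.inl (Or.inl (Or.inl ⟨hp, h1, h2⟩))))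
    · exact Or.inl (Or.inl (Or.inl (Or.inl (Or.inl ⟨hp, h1, h2⟩))))
    · exact Or.inl (Or.inl (Or.inl (Or.inl (Or.inr ⟨hp, h1, h3⟩))))
    · exact Or.inr ⟨hp, h2, h3⟩
    · exact Or.inl (Or.inl (Or.inl (Or.inr ⟨hp, h2, h3⟩)))
    · exact Or.inl (Or.inr ⟨hp, h1, h3⟩)
    · exact Or.inl (Or.inl (Or.inr ⟨hp, h1, h2⟩))
    · exact Or.inl (Or.inl (Or.inr ⟨hp, h1, h2⟩))
  -- the exceptional sets are small
  have hNa' : volume Na ≤ ENNReal.ofReal (4 * t) * volume T := by
    refine (measure_mono ?_).trans (low_pairs hT ht0)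
    rintro p ⟨hp, h1, h2⟩
    exact ⟨hST (hE1 p hp), hST (hE2 p hp), h1, h2⟩
  have hhalf : ∀ x y : ℝ, ENNReal.ofReal |x - (1 / 2 : ℝ) * (x + y)| =
      ENNReal.ofReal (1 / 2) * ENNReal.ofReal |x - y| := by
    intro x y
    rw [← ENNReal.ofReal_mul (by norm_num)]
    congr 1
    have : x - (1 / 2 : ℝ) * (x + y) = 1 / 2 * (x - y) := by ring
    rw [this, abs_mul]
    norm_num
  have hhalf2 : ∀ z : ℝ≥0∞, z < ENNReal.ofReal t →
      ENNReal.ofReal (1 / 2) * z < ENNReal.ofReal (t / 2) := by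
    intro z hz
    have : ENNReal.ofReal (t / 2) = ENNReal.ofReal (1 / 2) * ENNReal.ofReal t := by
      rw [← ENNReal.ofReal_mul (by norm_num)]
      congr 1
      ring
    rw [this]
    exact (ENNReal.mul_lt_mul_iff_right (by simp) (by simp)).2 hz
  have hNb' : volume Nb ≤ ENNReal.ofReal (8 * t) * volume T := by
    have hsub : Nb ⊆ {p : (ℝ × ℝ) × (ℝ × ℝ) | (p.1, (1 / 2 : ℝ) • (p.1 + p.2)) ∈ Low T (t / 2)} := by
      rintro p ⟨hp, h1, h2⟩
      refine ⟨hST (hE1 p hp), hST (hseg p hp (hEmid p hp)), ?_, ?_⟩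
      · simp only [Prod.smul_fst, Prod.fst_add, smul_eq_mul]
        rw [hhalf, mul_left_comm]
        exact hhalf2 _ h1
      · simp only [Prod.smul_fst, Prod.fst_add, smul_eq_mul]
        rw [hhalf, mul_left_comm]
        have : (1 / 2 : ℝ) * (p.1.1 + p.2.1) = (p.1.1 + p.2.1) / 2 := by ring
        rw [this]
        exact hhalf2 _ h2
    calc volume Nb ≤ 4 * volume (Low T (t / 2)) := by
          rw [← vol_mid (measurableSet_Low hT _)]
          exact measure_mono hsub
      _ ≤ 4 * (ENNReal.ofReal (4 * (t / 2)) * volume T) := by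
          gcongr
          exact low_pairs hT (by positivity)
      _ = ENNReal.ofReal (8 * t) * volume T := by
          rw [← mul_assoc]
          congr 1
          have : (4 : ℝ≥0∞) = ENNReal.ofReal 4 := by simp
          rw [this, ← ENNReal.ofReal_mul (by norm_num)]
          congr 1
          ring
  have hmp : MeasurePreserving (Prod.swap : (ℝ × ℝ) × (ℝ × ℝ) → (ℝ × ℝ) × (ℝ × ℝ))
      volume volume := Measure.measurePreserving_swap
  have hNc' : volume Nc ≤ ENNReal.ofReal (8 * t) * volume T := by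
    have hPm : MeasurableSet {p : (ℝ × ℝ) × (ℝ × ℝ) |
        (p.1, (1 / 2 : ℝ) • (p.1 + p.2)) ∈ Low T (t / 2)} := by
      have hm : Measurable (fun p : (ℝ × ℝ) × (ℝ × ℝ) => (p.1, (1 / 2 : ℝ) • (p.1 + p.2))) := by
        fun_prop
      exact hm (measurableSet_Low hT _)
    have hsub : Nc ⊆ Prod.swap ⁻¹' {p : (ℝ × ℝ) × (ℝ × ℝ) |
        (p.1, (1 / 2 : ℝ) • (p.1 + p.2)) ∈ Low T (t / 2)} := by
      rintro p ⟨hp, h1, h2⟩
      have hcomm : (1 / 2 : ℝ) • (p.2 + p.1) = (1 / 2 : ℝ) • (p.1 + p.2) := by rw [add_comm]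
      refine ⟨hST (hE2 p hp), ?_, ?_, ?_⟩
      · simp only [Prod.fst_swap, Prod.snd_swap]
        rw [hcomm]
        exact hST (hseg p hp (hEmid p hp))
      · simp only [Prod.smul_fst, Prod.fst_add, smul_eq_mul, Prod.fst_swap, Prod.snd_swap]
        rw [hhalf, mul_left_comm, abs_sub_comm]
        exact hhalf2 _ h1
      · simp only [Prod.smul_fst, Prod.fst_add, smul_eq_mul, Prod.fst_swap, Prod.snd_swap]
        rw [hhalf, mul_left_comm, abs_sub_comm]
        have : (1 / 2 : ℝ) * (p.2.1 + p.1.1) = (p.1.1 + p.2.1) / 2 := by ring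
        rw [this]
        exact hhalf2 _ h2
    calc volume Nc ≤ 4 * volume (Low T (t / 2)) := by
          rw [← vol_mid (measurableSet_Low hT _), ← hmp.measure_preimage hPm.nullMeasurableSet]
          exact measure_mono hsub
      _ ≤ 4 * (ENNReal.ofReal (4 * (t / 2)) * volume T) := by
          gcongr
          exact low_pairs hT (by positivity)
      _ = ENNReal.ofReal (8 * t) * volume T := by
          rw [← mul_assoc]
          congr 1
          have : (4 : ℝ≥0∞) = ENNReal.ofReal 4 := by simp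
          rw [this, ← ENNReal.ofReal_mul (by norm_num)]
          congr 1
          ring
  -- the constants
  have hconst : ρ * t / 16 ≥ ε ^ 2 / 12000 * A := by
    have h : ρ * t / 16 = ε ^ 2 * A / 11808 := by
      rw [hρ, ht]; ring
    rw [h]
    have : 0 < ε ^ 2 * A := by positivity
    rw [ge_iff_le]
    calc ε ^ 2 / 12000 * A = ε ^ 2 * A / 12000 := by ring
      _ ≤ ε ^ 2 * A / 11808 := by
        apply div_le_div_of_nonneg_left this.le (by norm_num) (by norm_num)
  -- one of the three good sets is large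
  rcases lt_or_ge (ENNReal.ofReal ρ * volume T ^ 2) (volume Ea) with h1 | h1
  · have key := finish hEam hT (fun p hp => hseg p hp.1)
      (fun p hp => ⟨hST (hE1 p hp.1), hST (hE2 p hp.1)⟩) hρ0 ht0 (fun p hp => hp.2) h1
    refine key.mono (le_trans hconst ?_)
    have : 0 < ρ * t := by positivity
    linarith
  rcases lt_or_ge (ENNReal.ofReal (4 * ρ) * volume T ^ 2) (volume Eb) with h2 | h2
  · have key := finish_mid hEbm hT hST (fun p hp => hseg p hp.1) hρ0 ht0 (fun p hp => hp.2) h2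
    exact key.mono hconst
  rcases lt_or_ge (ENNReal.ofReal (4 * ρ) * volume T ^ 2) (volume Ec) with h3 | h3
  · have key := finish_mid (S := S) (T := T) (E := Prod.swap ⁻¹' Ec)
      (hEcm.preimage measurable_swap) hT hST (by
        intro p hp
        rw [segment_symm]
        exact hseg _ hp.1) hρ0 ht0 (by
        intro p hp
        have h4 := hp.2.1
        have h5 := hp.2.2
        simp only [fb, fm, Prod.fst_swap, Prod.snd_swap] at h4 h5
        rw [abs_sub_comm] at h4 h5
        rw [add_comm] at h5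
        exact ⟨h4, h5⟩) (by
        rw [hmp.measure_preimage hEcm.nullMeasurableSet]
        exact h3)
    exact key.mono hconst
  exfalso
  have htot : volume E ≤ ENNReal.ofReal ρ * volume T ^ 2 + ENNReal.ofReal (4 * ρ) * volume T ^ 2 +
      ENNReal.ofReal (4 * ρ) * volume T ^ 2 + ENNReal.ofReal (4 * t) * volume T +
      ENNReal.ofReal (8 * t) * volume T + ENNReal.ofReal (8 * t) * volume T := by
    refine (measure_mono hcov).trans ?_
    refine (measure_union_le _ _).trans (add_le_add ?_ hNc')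
    refine (measure_union_le _ _).trans (add_le_add ?_ hNb')
    refine (measure_union_le _ _).trans (add_le_add ?_ hNa')
    refine (measure_union_le _ _).trans (add_le_add ?_ h3)
    exact (measure_union_le _ _).trans (add_le_add h1 h2)
  have hle := hvol.trans htot
  rw [hTA, ← ENNReal.ofReal_pow hA0.le, ← ENNReal.ofReal_mul (by positivity),
    ← ENNReal.ofReal_mul (by positivity), ← ENNReal.ofReal_mul (by positivity),
    ← ENNReal.ofReal_mul (by positivity), ← ENNReal.ofReal_mul (by positivity),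
    ← ENNReal.ofReal_add (by positivity) (by positivity),
    ← ENNReal.ofReal_add (by positivity) (by positivity),
    ← ENNReal.ofReal_add (by positivity) (by positivity),
    ← ENNReal.ofReal_add (by positivity) (by positivity),
    ← ENNReal.ofReal_add (by positivity) (by positivity),
    ENNReal.ofReal_le_ofReal_iff (by positivity)] at hle
  have h9 : ρ * A ^ 2 + 4 * ρ * A ^ 2 + 4 * ρ * A ^ 2 + 4 * t * A + 8 * t * A + 8 * t * A =
      (1 / 2 + 20 / 41) * (ε * A ^ 2) := by
    rw [hρ, ht]; ring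
  rw [h9] at hle
  have h10 : 0 < ε * A ^ 2 := by positivity
  linarith

/-- **Main theorem.** If the Beer index of `S` is defined and at least `ε > 0`, then `S` contains
the boundary (the three sides) of a triangle of area at least `(ε² / 12000) λ(S)`. -/
theorem result (ε : ℝ) (hε : 0 < ε) (S : Set (ℝ × ℝ)) (hS : BeerDefined S)
    (hb : ε ≤ beerIndex S) :
    ∃ x y z : ℝ × ℝ, AffineIndependent ℝ ![x, y, z] ∧
      segment ℝ x y ∪ segment ℝ y z ∪ segment ℝ z x ⊆ S ∧
      ε ^ 2 / 12000 * (volume S).toReal ≤ (volume (convexHull ℝ {x, y, z})).toReal := by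
  obtain ⟨hm, hpos, hfin, hsm⟩ := hS
  -- a measurable superset of `S` and a measurable subset of `Seg S`
  set T := toMeasurable volume S with hT
  have hTm : MeasurableSet T := measurableSet_toMeasurable _ _
  have hST : S ⊆ T := subset_toMeasurable _ _
  have hTvol : volume T = volume S := measure_toMeasurable _
  obtain ⟨E, hEsub, hEm, hEae⟩ := hsm.exists_measurable_subset_ae_eq
  have hEvol : volume E = volume (Seg S) := measure_congr hEae
  have hA0 : 0 < (volume S).toReal := ENNReal.toReal_pos hpos.ne' hfin.ne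
  have hSegfin : volume (Seg S) ≠ ⊤ := by
    have hsub : Seg S ⊆ T ×ˢ T := by
      rintro p ⟨h1, h2, -⟩
      exact ⟨hST h1, hST h2⟩
    refine ne_top_of_le_ne_top ?_ (measure_mono hsub)
    rw [Measure.volume_eq_prod, Measure.prod_prod, hTvol]
    exact (ENNReal.mul_lt_top hfin hfin).ne
  have hvol : ENNReal.ofReal ε * volume T ^ 2 ≤ volume E := by
    rw [hEvol, hTvol, ← ENNReal.ofReal_toReal hfin.ne, ← ENNReal.ofReal_toReal hSegfin,
      ← ENNReal.ofReal_pow hA0.le, ← ENNReal.ofReal_mul hε.le]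
    apply ENNReal.ofReal_le_ofReal
    unfold beerIndex at hb
    rwa [le_div_iff₀ (by positivity)] at hb
  have hcore := core (S := S) hEm hTm (by rw [hTvol]; exact hfin.ne) (by rw [hTvol]; exact hpos.ne')
    hST (fun p hp => (hEsub hp).2.2) hε hvol
  obtain ⟨x, y, z, h1, h2, h3, h4, h5⟩ := hcore
  refine ⟨x, y, z, h1, ?_, ?_⟩
  · rw [segment_symm ℝ z x]
    exact union_subset (union_subset h2 h3) h4
  · rw [hTvol] at h5
    have hfin' : volume (convexHull ℝ {x, y, z}) ≠ ⊤ := by
      have : IsCompact (convexHull ℝ ({x, y, z} : Set (ℝ × ℝ))) :=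
        (Set.toFinite _).isCompact_convexHull ℝ
      exact this.measure_lt_top.ne
    have h6 := ENNReal.toReal_mono hfin' h5
    rwa [ENNReal.toReal_ofReal (by positivity)] at h6

end Pool.Agent.Results.MP_40f41c_co.BeerTriangle
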